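import Pool.Agent.WAP.StmtsC
import Pool.Agent.WAP.Alg

/-!
# WAP, row CDV: division by powers of `1 + i` converges to the point at infinity
-/

set_option autoImplicit false

namespace Pool.Agent.WAP.H8

open Pool.Agent.WAP Pool.Agent.WAP.C Pool.Agent.WAP.G Classical

section
variable {F : Type} [NormedField F] [Algebra GaussianInt F]

/-- equality case of the triangle inequality -/
theorem tri_eq (hF : IsCx F) {x : F} (h1 : ‖x‖ = 1) (h2 : ‖x - x⁻¹‖ = 2) : x ^ 2 = -1 := by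
  obtain ⟨σ, hσ⟩ := hF
  have hx0 : x ≠ 0 := by
    rintro rfl
    rw [norm_zero] at h1
    norm_num at h1
  have h3 : ‖x ^ 2 - 1‖ = 2 := by
    have : x ^ 2 - 1 = x * (x - x⁻¹) := by
      field_simp
    rw [this, norm_mul, h1, h2, one_mul]
  have h4 : ‖x ^ 2‖ = 1 := by rw [norm_pow, h1, one_pow]
  rw [← hσ] at h3 h4
  rw [map_sub, map_one] at h3
  set u : ℂ := σ (x ^ 2) with hu
  have h5 : Complex.normSq u = 1 := by
    rw [Complex.normSq_eq_norm_sq, h4, one_pow]
  have h6 : Complex.normSq (u - 1) = 4 := by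
    rw [Complex.normSq_eq_norm_sq, h3]
    norm_num
  rw [Complex.normSq_apply] at h5 h6
  simp only [Complex.sub_re, Complex.one_re, Complex.sub_im, Complex.one_im, sub_zero] at h6
  have h7 : u.re = -1 := by nlinarith
  have h8 : u.im = 0 := by
    rw [h7] at h5
    nlinarith
  have h9 : u = -1 := by
    apply Complex.ext
    · rw [h7]; simp
    · rw [h8]; simp
  apply σ.injective
  rw [map_neg, map_one]
  exact h9

theorem two_ne_cx (hF : IsCx F) : (2 : F) ≠ 0 := by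
  obtain ⟨σ, _⟩ := hF
  intro h
  have := congrArg σ h
  rw [map_ofNat, map_zero] at this
  norm_num at this

/-- one step of the division -/
theorem div_step (lay : LayStmt) (cxf : CxfStmt) (hF : IsCx F) (T : Pt (1 : F)) :
    ∃ Q : Pt (1 : F), sm lam Q = T ∧ (T ≠ 0 → 1 ≤ ‖cX Q‖ ∧
      cX Q - (cX Q)⁻¹ = 2 * algebraMap GaussianInt F ⟨0, 1⟩ * cX T) := by
  by_cases hT : T = 0
  · exact ⟨0, by rw [sm_zero, hT], fun h => absurd hT h⟩
  have h2 := two_ne_cx hF
  have hquad := (cxf F hF).2.1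
  set i : F := algebraMap GaussianInt F ⟨0, 1⟩ with hi
  have hi2 : i ^ 2 = -1 := ii_sq
  have hi0 : i ≠ 0 := by
    intro h
    rw [h] at hi2
    norm_num at hi2
  -- the root of absolute value at least 1
  have hroot : ∃ X : F, X ≠ 0 ∧ 1 ≤ ‖X‖ ∧ X ^ 2 - 2 * i * cX T * X - 1 = 0 := by
    obtain ⟨X, hX⟩ := hquad (-(2 * i * cX T)) (-1)
    have hX0 : X ≠ 0 := by
      rintro rfl
      norm_num at hX
    by_cases h1 : 1 ≤ ‖X‖
    · exact ⟨X, hX0, h1, by linear_combination hX⟩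
    · refine ⟨-X⁻¹, neg_ne_zero.2 (inv_ne_zero hX0), ?_, ?_⟩
      · rw [norm_neg, norm_inv]
        exact (one_le_inv₀ (norm_pos_iff.2 hX0)).2 (not_le.1 h1).le
      · field_simp
        linear_combination -hX
  obtain ⟨X, hX0, hX1, hX⟩ := hroot
  obtain ⟨Y, hY⟩ := hquad 0 (-(X ^ 3 - X))
  have hns : (W (1 : F)).Nonsingular X Y := by
    rw [W_nonsingular (1 : F) X Y h2 one_ne_zero]
    linear_combination hY
  set Q : Pt (1 : F) := WeierstrassCurve.Affine.Point.some X Y hns with hQ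
  have hQX : cX Q = X := rfl
  have hQ0 : Q ≠ 0 := by
    intro h
    have : cX Q = 0 := by rw [h]; rfl
    rw [hQX] at this
    exact hX0 this
  obtain ⟨h3, h4⟩ := (lay F 1 h2 one_ne_zero Q hQ0).2 (by rw [hQX]; exact hX0)
  rw [hQX] at h4
  have h5 : cX (sm lam Q) = cX T := by
    have h6 : (2 * i * X) ≠ 0 := mul_ne_zero (mul_ne_zero h2 hi0) hX0
    apply mul_right_cancel₀ h6
    rw [h4]
    linear_combination hX
  have h7 : xn (sm lam Q) = xn T := by
    unfold xn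
    rw [h5]
  have h8 : X - X⁻¹ = 2 * i * cX T := by
    field_simp
    linear_combination hX
  rcases eq_or_neg_of_xn one_ne_zero h3 hT h7 with h9 | h9
  · exact ⟨Q, h9, fun _ => ⟨by rw [hQX]; exact hX1, by rw [hQX]; exact h8⟩⟩
  · have hneg : cX (-Q) = X := by
      have := xn_neg Q
      unfold xn at this
      rw [div_one, div_one] at this
      rw [this, hQX]
    refine ⟨-Q, by rw [sm_neg, h9, neg_neg], fun _ => ⟨by rw [hneg]; exact hX1, by rw [hneg]; exact h8⟩⟩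

/-- large points are near the origin -/
theorem big_nO (hF : IsCx F) (r : ℝ) (hr : 0 < r) (Q : Pt (1 : F)) (hQ : 2 + 2 / r ^ 2 ≤ ‖cX Q‖) : nO r Q := by
  have hr2 : 0 < 2 / r ^ 2 := by positivity
  have h1 : 1 < ‖cX Q‖ := by linarith
  refine Or.inr ⟨h1, ?_⟩
  have hX0 : cX Q ≠ 0 := by
    intro h
    rw [h, norm_zero] at h1
    linarith
  have hQ0 : Q ≠ 0 := by
    rintro rfl
    exact hX0 rfl
  have hE : cY Q ^ 2 = cX Q ^ 3 - cX Q := by
    rcases Q with _ | ⟨X, Y, h⟩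
    · exact absurd rfl hQ0
    · have := (W_nonsingular (1 : F) X Y (two_ne_cx hF) one_ne_zero).1 h
      show Y ^ 2 = X ^ 3 - X
      rw [this]; ring
  set x : ℝ := ‖cX Q‖ with hx
  have hx2 : 2 ≤ x := by linarith
  have h3 : x ^ 2 - 1 ≤ ‖cX Q ^ 2 - 1‖ := by
    have := norm_sub_norm_le (cX Q ^ 2) (1 : F)
    rw [norm_pow, norm_one] at this
    exact this
  have h4 : x * (x ^ 2 - 1) ≤ ‖cY Q‖ ^ 2 := by
    have hYn : ‖cY Q‖ ^ 2 = ‖cX Q ^ 3 - cX Q‖ := by rw [← hE, norm_pow]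
    rw [hYn]
    have : cX Q ^ 3 - cX Q = cX Q * (cX Q ^ 2 - 1) := by ring
    rw [this, norm_mul, ← hx]
    exact mul_le_mul_of_nonneg_left h3 (by linarith)
  have hYpos : 0 < ‖cY Q‖ ^ 2 := by
    refine lt_of_lt_of_le ?_ h4
    have : 0 < x ^ 2 - 1 := by nlinarith
    positivity
  have h5 : ‖cz Q‖ ^ 2 ≤ r ^ 2 := by
    have : cz Q = cX Q / cY Q := rfl
    rw [this, norm_div, div_pow, div_le_iff₀ hYpos, ← hx]
    refine le_trans ?_ (mul_le_mul_of_nonneg_left h4 (by positivity))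
    have h6 : 2 ≤ r ^ 2 * x := by
      have : 2 / r ^ 2 ≤ x := by linarith
      rw [div_le_iff₀ (by positivity)] at this
      linarith
    have h7 : x ^ 2 ≤ 2 * (x ^ 2 - 1) := by nlinarith
    calc x ^ 2 ≤ 2 * (x ^ 2 - 1) := h7
      _ ≤ (r ^ 2 * x) * (x ^ 2 - 1) := mul_le_mul_of_nonneg_right h6 (by nlinarith)
      _ = r ^ 2 * (x * (x ^ 2 - 1)) := by ring
  exact (sq_le_sq₀ (norm_nonneg _) hr.le).1 h5

end

theorem cdv (lay : LayStmt) (cxf : CxfStmt) : CdvStmt := by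
  intro F _ _ hF T r hr
  by_cases hT : T = 0
  · exact ⟨0, 0, by rw [hT, sm_zero], Or.inl rfl⟩
  choose g hg1 hg2 using fun T : Pt (1 : F) => div_step lay cxf hF T
  set i : F := algebraMap GaussianInt F ⟨0, 1⟩ with hi
  have hi2 : i ^ 2 = -1 := ii_sq
  have hin : ‖i‖ = 1 := by
    have h1 : ‖i‖ ^ 2 = 1 := by rw [← norm_pow, hi2, norm_neg, norm_one]
    nlinarith [norm_nonneg i]
  have h2n : ‖(2 : F)‖ = 2 := by
    have := (cxf F hF).1.1 2
    exact_mod_cast this
  set q : ℕ → Pt (1 : F) := fun m => g^[m] T with hq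
  have hq0 : q 0 = T := rfl
  have hqs : ∀ m, q (m + 1) = g (q m) := fun m => Function.iterate_succ_apply' g m T
  have hqne : ∀ m, q m ≠ 0 := by
    intro m
    induction m with
    | zero => exact hT
    | succ m ih =>
      intro h0
      apply ih
      rw [← hg1 (q m), ← hqs m, h0, sm_zero]
  have hdiv : ∀ m, sm (lam ^ m) (q m) = T := by
    intro m
    induction m with
    | zero => rw [pow_zero, one_sm, hq0]
    | succ m ih =>
      rw [pow_succ, mul_sm, hqs m, hg1 (q m), ih]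
  have hge : ∀ m, 1 ≤ ‖cX (q (m + 1))‖ := by
    intro m
    rw [hqs m]
    exact (hg2 (q m) (hqne m)).1
  have hrel : ∀ m, cX (q (m + 1)) - (cX (q (m + 1)))⁻¹ = 2 * i * cX (q m) := by
    intro m
    rw [hqs m]
    exact (hg2 (q m) (hqne m)).2
  have hnrel : ∀ m, ‖cX (q (m + 1)) - (cX (q (m + 1)))⁻¹‖ = 2 * ‖cX (q m)‖ := by
    intro m
    rw [hrel m, norm_mul, norm_mul, h2n, hin, mul_one]
  -- growth
  have hgrow : ∀ m, 2 * ‖cX (q m)‖ - 1 ≤ ‖cX (q (m + 1))‖ := by
    intro m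
    have h1 := hnrel m
    have h3 := norm_sub_le (cX (q (m + 1))) (cX (q (m + 1)))⁻¹
    have h4 : ‖(cX (q (m + 1)))⁻¹‖ ≤ 1 := by
      rw [norm_inv]
      exact inv_le_one_of_one_le₀ (hge m)
    linarith
  -- one of the first three is larger than 1
  have hex : ∃ m, 1 < ‖cX (q m)‖ := by
    by_contra hcon
    push Not at hcon
    have h1 : ∀ m, ‖cX (q (m + 1))‖ = 1 := fun m => le_antisymm (hcon _) (hge m)
    have h3 : ∀ m, cX (q (m + 1 + 1)) ^ 2 = -1 := by
      intro m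
      apply tri_eq hF (h1 (m + 1))
      rw [hnrel (m + 1), h1 m, mul_one]
    have h4 := hrel (1 + 1)
    have h5 := h3 0
    have h6 := h3 1
    set x := cX (q (1 + 1 + 1)) with hx
    set y := cX (q (1 + 1)) with hy
    have h5' : y ^ 2 = -1 := h5
    have hx0 : x ≠ 0 := by
      intro h0
      rw [h0] at h6
      norm_num at h6
    have h7 : x⁻¹ = -x := by
      rw [inv_eq_iff_eq_inv, ← one_div, eq_div_iff (neg_ne_zero.2 hx0)]
      linear_combination -h6
    rw [h7] at h4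
    have h8 : (x - -x) ^ 2 = (2 * i * y) ^ 2 := by rw [h4]
    have h9 : (8 : F) = 0 := by
      linear_combination -h8 + 4 * h6 - 4 * i ^ 2 * h5' + 4 * hi2
    have h10 : (2 : F) ^ 3 = 0 := by
      rw [← h9]; norm_num
    exact two_ne_cx hF (pow_eq_zero_iff (by norm_num) |>.1 h10)
  obtain ⟨m, hm⟩ := hex
  have hexp : ∀ k : ℕ, 1 + 2 ^ k * (‖cX (q m)‖ - 1) ≤ ‖cX (q (m + k))‖ := by
    intro k
    induction k with
    | zero => simp
    | succ k ih =>
      have h1 := hgrow (m + k)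
      rw [pow_succ]
      have h3 : q (m + (k + 1)) = q (m + k + 1) := rfl
      rw [h3]
      nlinarith
  obtain ⟨k, hk⟩ := pow_unbounded_of_one_lt ((2 + 2 / r ^ 2) / (‖cX (q m)‖ - 1)) (one_lt_two (α := ℝ))
  refine ⟨m + k, q (m + k), hdiv _, big_nO hF r hr _ ?_⟩
  have h1 : 0 < ‖cX (q m)‖ - 1 := by linarith
  rw [div_lt_iff₀ h1] at hk
  have := hexp k
  linarith

end Pool.Agent.WAP.H8
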