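import Pool.Agent.WAP.StmtsC
import Pool.Agent.WAP.Alg

/-!
# WAP, row CGE: the multiples of a point without torsion are dense
-/

set_option autoImplicit false

namespace Pool.Agent.WAP.H8

open Pool.Agent.WAP Pool.Agent.WAP.C Pool.Agent.WAP.G Classical

theorem nO_mono {F : Type} [NormedField F] {r s : ℝ} (h : r ≤ s) {P : Pt (1 : F)} (hP : nO r P) : nO s P := by
  rcases hP with hP | ⟨h1, h2⟩
  · exact Or.inl hP
  · exact Or.inr ⟨h1, h2.trans h⟩

/-- the subgroup of the multiples of a point -/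
noncomputable def mul8 {F : Type} [Field F] [Algebra GaussianInt F] {d : F} (P : Pt d) : AddSubgroup (Pt d) where
  carrier := Set.range fun a : GaussianInt => sm a P
  add_mem' := by
    rintro _ _ ⟨a, rfl⟩ ⟨b, rfl⟩
    exact ⟨a + b, add_sm a b P⟩
  zero_mem' := ⟨0, zero_sm P⟩
  neg_mem' := by
    rintro _ ⟨a, rfl⟩
    exact ⟨-a, neg_sm a P⟩

theorem cge (cli : CliStmt) (cgr : CgrStmt) (cdv : CdvStmt) (cph : CphStmt) (cct : CctStmt) : CgeStmt := by
  intro F _ _ hF P hP U T0 ε hT0 hε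
  obtain ⟨m, Q, hQ, hQ2⟩ := cdv F hF (T0 - U) (1 / 20) (by norm_num)
  obtain ⟨r, hr, hcct⟩ := cct F hF T0 ε hT0 hε
  obtain ⟨C, r1, hC, hr1, hcli⟩ := cli F hF (lam ^ m)
  set r' : ℝ := min (1 / 20) (min r1 (r / C)) with hr'
  have hr'0 : 0 < r' := by
    rw [hr']
    exact lt_min (by norm_num) (lt_min hr1 (div_pos hr hC))
  have hr'1 : r' ≤ 1 / 20 := min_le_left _ _
  have hr'2 : r' ≤ r1 := (min_le_right _ _).trans (min_le_left _ _)
  have hr'3 : C * r' ≤ r := by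
    have : r' ≤ r / C := (min_le_right _ _).trans (min_le_right _ _)
    rw [le_div_iff₀ hC] at this
    linarith
  have hinf : ((mul8 P : AddSubgroup (Pt (1 : F))) : Set (Pt (1 : F))).Infinite := by
    apply Set.infinite_range_of_injective
    intro a b hab
    by_contra hne
    apply hP (a - b) (sub_ne_zero.2 hne)
    have h1 : sm a P = sm b P := hab
    rw [sub_sm, h1, sub_self]
  obtain ⟨e, ⟨b, hb⟩, he0, he⟩ := cph F hF (mul8 P) hinf r' hr'0
  have hb' : sm b P = e := hb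
  obtain ⟨a0, ha0⟩ := cgr F hF e Q he0 (nO_mono hr'1 he) hQ2
  have hcz : ‖cz e‖ ≤ r' := by
    rcases he with he | ⟨_, he⟩
    · exact absurd he he0
    · exact he
  have hD := (hcli r' hr'0 hr'2 (Q - sm a0 e) (nO_mono hcz ha0)).1
  obtain ⟨h1, h2, h3⟩ := hcct _ (nO_mono hr'3 hD)
  have hkey : U + sm (lam ^ m * a0 * b) P = T0 - sm (lam ^ m) (Q - sm a0 e) := by
    rw [sm_sub, hQ, ← hb', mul_sm (lam ^ m * a0) b, mul_sm (lam ^ m) a0]
    abel
  refine ⟨lam ^ m * a0 * b, ?_⟩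
  rw [hkey]
  exact ⟨h1, h2, h3⟩

end Pool.Agent.WAP.H8
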