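import Pool.Agent.Helper10_WAP.VEX
import Pool.Agent.Helper53_WAP.TYS
import Pool.Agent.Helper95_WAP.TYO
import Pool.Agent.Helper59_WAP.IDN
import Pool.Agent.Helper54_WAP.RHO
import Pool.Agent.Helper19_WAP.EVN
import Pool.Agent.Helper27_WAP.COL
import Pool.Agent.Helper80_WAP.AAS
import Pool.Agent.Helper2_WAP.BS1
import Pool.Agent.Helper35_WAP.BAT
import Pool.Agent.Helper40_WAP.GExp

/-!
# WAP, part P2 assembled
-/

set_option autoImplicit false

namespace Pool.Agent.WAP.H8

open Pool.Agent.WAP Classical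

theorem batA (con : ConStmt) (den : DenStmt) : BatStmt :=
  H35.bat H10.vex H95.tyo H59.idn H54.rho H19.evn (H80.aas H27.col H19.evn) (H2.bs1 H53.tys H40.fre)
    H40.fre H40.inv con den

end Pool.Agent.WAP.H8
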