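import Pool.Agent.WAP.StmtsP2
import Pool.Agent.WAP.Alg
import Pool.Agent.WAP.StmtsM

/-!
# WAP, row K2G: every point goes to the origin under the powers of `1 + i`
-/

set_option autoImplicit false

namespace Pool.Agent.WAP.H8

open Pool.Agent.WAP Pool.Agent.WAP.P2 Pool.Agent.WAP.G Classical

section
variable {F : Type} [NormedField F] [Algebra GaussianInt F] {v : F → ℤ}

theorem ii_def8 : algebraMap GaussianInt F ⟨0, 1⟩ ^ 2 = -1 := ii_sq

theorem ii_ne8 : algebraMap GaussianInt F ⟨0, 1⟩ ≠ 0 := by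
  intro h
  have := ii_def8 (F := F)
  rw [h] at this
  norm_num at this

theorem v_ii (hv : IsV F v) : v (algebraMap GaussianInt F ⟨0, 1⟩) = 0 := by
  have h1 := hv.mul _ _ (ii_ne8 (F := F)) ii_ne8
  rw [← pow_two, ii_def8, hv.neg_one] at h1
  omega

theorem v_2i (hv : IsV F v) : (2 * algebraMap GaussianInt F ⟨0, 1⟩ : F) ≠ 0 ∧
    v (2 * algebraMap GaussianInt F ⟨0, 1⟩) = 2 := by
  refine ⟨mul_ne_zero hv.two_ne ii_ne8, ?_⟩
  rw [hv.mul _ _ hv.two_ne ii_ne8, hv.two, v_ii hv]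
  rfl

/-- case (a) -/
theorem ca (hv : IsV F v) {x x' : F} (hx : x ≠ 0) (h : x' * (2 * algebraMap GaussianInt F ⟨0, 1⟩ * x) = x ^ 2 - 1)
    (hn : v x < 0) : x' ≠ 0 ∧ v x' = v x - 2 := by
  have h2 := v_2i hv
  have hx2 : v (x ^ 2) = 2 * v x := by rw [hv.pow x hx 2]; rfl
  have h3 := hv.add_lt (x ^ 2) (-1) (pow_ne_zero 2 hx) (Or.inr (by rw [hv.neg_one, hx2]; omega))
  rw [← sub_eq_add_neg] at h3
  have hx' : x' ≠ 0 := by
    rintro rfl
    rw [zero_mul] at h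
    exact h3.1 h.symm
  refine ⟨hx', ?_⟩
  have h4 := hv.mul x' _ hx' (mul_ne_zero h2.1 hx)
  rw [h, hv.mul _ _ h2.1 hx, h2.2, h3.2, hx2] at h4
  omega

/-- case (b) -/
theorem cb (hv : IsV F v) {x x' : F} (hx : x ≠ 0) (h : x' * (2 * algebraMap GaussianInt F ⟨0, 1⟩ * x) = x ^ 2 - 1)
    (hn : 0 < v x) : x' ≠ 0 ∧ v x' < 0 := by
  have h2 := v_2i hv
  have hx2 : v (x ^ 2) = 2 * v x := by rw [hv.pow x hx 2]; rfl
  have h3 := hv.add_lt (-1) (x ^ 2) (neg_ne_zero.2 one_ne_zero) (Or.inr (by rw [hv.neg_one, hx2]; omega))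
  rw [neg_add_eq_sub, hv.neg_one] at h3
  have hx' : x' ≠ 0 := by
    rintro rfl
    rw [zero_mul] at h
    exact h3.1 h.symm
  refine ⟨hx', ?_⟩
  have h4 := hv.mul x' _ hx' (mul_ne_zero h2.1 hx)
  rw [h, hv.mul _ _ h2.1 hx, h2.2, h3.2] at h4
  omega

/-- case (c) -/
theorem cc (hv : IsV F v) {x x' : F} (hx : x ≠ 0) (h : x' * (2 * algebraMap GaussianInt F ⟨0, 1⟩ * x) = x ^ 2 - 1)
    (hn : v x = 0) (h1 : x ≠ 1) (hm1 : x ≠ -1) (h12 : 2 ≤ v (x - 1)) : x' ≠ 0 ∧ 0 < v x' := by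
  have h2 := v_2i hv
  have hx1 : x - 1 ≠ 0 := sub_ne_zero.2 h1
  have hxm : x + 1 ≠ 0 := by
    intro h0
    exact hm1 (eq_neg_of_add_eq_zero_left h0)
  have h5 : 5 ≤ v (x ^ 2 - 1) := by
    have h6 : x ^ 2 - 1 = (x - 1) * (x + 1) := by ring
    rw [h6, hv.mul _ _ hx1 hxm]
    rcases eq_or_lt_of_le h12 with h7 | h7
    · -- v (x - 1) = 2
      have he0 : (x - 1) / 2 ≠ 0 := div_ne_zero hx1 hv.two_ne
      have hve : v ((x - 1) / 2) = 0 := by
        rw [hv.div _ _ hx1 hv.two_ne, hv.two]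
        omega
      have hne : -((x - 1) / 2) ≠ 1 := by
        intro h0
        apply hm1
        have h8 : (x - 1) / 2 = -1 := neg_eq_iff_eq_neg.1 h0
        rw [div_eq_iff hv.two_ne] at h8
        linear_combination h8
      have h9 := hv.res (-((x - 1) / 2)) (neg_ne_zero.2 he0) (by rw [hv.neg _ he0]; exact hve) hne
      have h10 : -((x - 1) / 2) - 1 = -((x + 1) / 2) := by
        have := hv.two_ne
        field_simp
        ring
      rw [h10, hv.neg _ (div_ne_zero hxm hv.two_ne), hv.div _ _ hxm hv.two_ne, hv.two] at h9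
      omega
    · have h8 := hv.add_lt 2 (x - 1) hv.two_ne (Or.inr (by rw [hv.two]; omega))
      have h9 : (2 : F) + (x - 1) = x + 1 := by ring
      rw [h9, hv.two] at h8
      omega
  have hne : x ^ 2 - 1 ≠ 0 := by
    have h6 : x ^ 2 - 1 = (x - 1) * (x + 1) := by ring
    rw [h6]
    exact mul_ne_zero hx1 hxm
  have hx' : x' ≠ 0 := by
    rintro rfl
    rw [zero_mul] at h
    exact hne h.symm
  refine ⟨hx', ?_⟩
  have h4 := hv.mul x' _ hx' (mul_ne_zero h2.1 hx)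
  rw [h, hv.mul _ _ h2.1 hx, h2.2] at h4
  omega

theorem la_def8 : la F = 1 + algebraMap GaussianInt F ⟨0, 1⟩ := by
  unfold la
  have : lam = 1 + ⟨0, 1⟩ := by decide
  rw [this, map_add, map_one]

theorem v_la (hv : IsV F v) : la F ≠ 0 ∧ v (la F) = 1 := by
  have h0 : la F ≠ 0 := norm_pos_iff.1 hv.pos
  refine ⟨h0, ?_⟩
  have h1 := hv.norm _ h0
  have h2 : ‖la F‖ ^ (1 : ℤ) = ‖la F‖ ^ (v (la F)) := by rw [zpow_one]; exact h1
  exact ((zpow_right_injective₀ hv.pos hv.lt.ne) h2).symm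

/-- case (d) -/
theorem cd (hv : IsV F v) {x x' : F} (hx : x ≠ 0) (h : x' * (2 * algebraMap GaussianInt F ⟨0, 1⟩ * x) = x ^ 2 - 1)
    (hn : v x = 0) (h1 : x ≠ 1) (h12 : v (x - 1) = 1) :
    x' ≠ 0 ∧ v x' = 0 ∧ (x' = 1 ∨ 2 ≤ v (x' - 1)) := by
  obtain ⟨hl0, hl1⟩ := v_la hv
  set i : F := algebraMap GaussianInt F ⟨0, 1⟩ with hi
  have hi2 : i ^ 2 = -1 := ii_def8
  have hi0 : i ≠ 0 := ii_ne8
  have hvi : v i = 0 := v_ii hv
  have hla : la F = 1 + i := la_def8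
  have hx1 : x - 1 ≠ 0 := sub_ne_zero.2 h1
  set e : F := (x - 1) / la F with he
  have he0 : e ≠ 0 := div_ne_zero hx1 hl0
  have hve : v e = 0 := by
    rw [he, hv.div _ _ hx1 hl0, h12, hl1]
    rfl
  have hxe : x = 1 + la F * e := by
    rw [he, mul_div_cancel₀ _ hl0]
    ring
  have hl2 : la F ^ 2 = 2 * i := by
    rw [hla]
    linear_combination hi2
  have hl2ne : la F ^ 2 ≠ 0 := pow_ne_zero 2 hl0
  have key : x' * x = e * (e - i * la F) := by
    apply mul_left_cancel₀ hl2ne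
    have h3 : la F ^ 2 * (x' * x) = x' * (2 * i * x) := by rw [hl2]; ring
    rw [h3, h, hxe]
    have h4 : (2 : F) = - i * la F ^ 2 := by
      rw [hl2]
      linear_combination 2 * hi2
    linear_combination (la F * e) * h4
  have hil : i * la F ≠ 0 := mul_ne_zero hi0 hl0
  have hvil : v (-(i * la F)) = 1 := by
    rw [hv.neg _ hil, hv.mul _ _ hi0 hl0, hvi, hl1]
    rfl
  have h5 := hv.add_lt e (-(i * la F)) he0 (Or.inr (by rw [hvil, hve]; norm_num))
  rw [← sub_eq_add_neg] at h5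
  have hne : x' * x ≠ 0 := by rw [key]; exact mul_ne_zero he0 h5.1
  have hx' : x' ≠ 0 := left_ne_zero_of_mul hne
  have hvx' : v x' = 0 := by
    have h6 := hv.mul x' x hx' hx
    rw [key, hv.mul _ _ he0 h5.1, h5.2, hve, hn] at h6
    omega
  refine ⟨hx', hvx', ?_⟩
  by_cases h7 : x' = 1
  · exact Or.inl h7
  right
  have h8 : x' - 1 ≠ 0 := sub_ne_zero.2 h7
  have key2 : (x' - 1) * x = (e ^ 2 - 1) - la F ^ 2 * e := by
    have : (x' - 1) * x = x' * x - x := by ring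
    rw [this, key, hxe]
    rw [hla]
    ring
  have h9 : v ((x' - 1) * x) = v (x' - 1) := by
    rw [hv.mul _ _ h8 hx, hn, add_zero]
  have h10 : (x' - 1) * x ≠ 0 := mul_ne_zero h8 hx
  rw [← h9]
  have hA : la F ^ 2 * e ≠ 0 := mul_ne_zero hl2ne he0
  have hvA : v (-(la F ^ 2 * e)) = 2 := by
    rw [hv.neg _ hA, hv.mul _ _ hl2ne he0, hve, hv.pow _ hl0, hl1]
    rfl
  by_cases hB : e ^ 2 - 1 = 0
  · rw [key2, hB, zero_sub, hvA]
  · have he1 : e - 1 ≠ 0 := by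
      intro h0
      apply hB
      have : e ^ 2 - 1 = (e - 1) * (e + 1) := by ring
      rw [this, h0, zero_mul]
    have he2 : e + 1 ≠ 0 := by
      intro h0
      apply hB
      have : e ^ 2 - 1 = (e - 1) * (e + 1) := by ring
      rw [this, h0, mul_zero]
    have h11 := hv.res e he0 hve (sub_ne_zero.1 he1)
    have h12' := hv.res (-e) (neg_ne_zero.2 he0) (by rw [hv.neg _ he0]; exact hve) (by
      intro h0
      apply he2
      rw [← h0]
      ring)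
    have h13 : -e - 1 = -(e + 1) := by ring
    rw [h13, hv.neg _ he2] at h12'
    have hvB : 2 ≤ v (e ^ 2 - 1) := by
      have : e ^ 2 - 1 = (e - 1) * (e + 1) := by ring
      rw [this, hv.mul _ _ he1 he2]
      omega
    have h14 := hv.add (e ^ 2 - 1) (-(la F ^ 2 * e)) hB (neg_ne_zero.2 hA) (by
      rw [← sub_eq_add_neg, ← key2]; exact h10)
    rw [← sub_eq_add_neg, ← key2, hvA] at h14
    exact (le_min hvB le_rfl).trans h14

end

section
variable {F : Type} [NormedField F] [Algebra GaussianInt F] {v : F → ℤ} {d : F}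

theorem lax_step (lax : LaxStmt) (h2 : (2 : F) ≠ 0) (hd : d ≠ 0) (P : Pt d) (hP : P ≠ 0)
    (hx : cX P ≠ 0) : sm lam P ≠ 0 ∧
      (cX (sm lam P) / d) * (2 * algebraMap GaussianInt F ⟨0, 1⟩ * (cX P / d)) = (cX P / d) ^ 2 - 1 := by
  obtain ⟨h1, h3⟩ := (lax F d h2 hd P hP).2 hx
  refine ⟨h1, ?_⟩
  field_simp
  linear_combination h3

/-- `P` is the origin or has negative valuation -/
def G0 (v : F → ℤ) (P : Pt d) : Prop := P = 0 ∨ (cX P ≠ 0 ∧ v (cX P / d) < 0)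

theorem g1 (lax : LaxStmt) (hv : IsV F v) (hd : d ≠ 0) (P : Pt d)
    (h : P = 0 ∨ cX P = 0 ∨ 0 < v (cX P / d)) : G0 v (sm lam P) := by
  by_cases hP : P = 0
  · left; rw [hP, sm_zero]
  by_cases hx : cX P = 0
  · left; exact (lax F d hv.two_ne hd P hP).1 hx
  rcases h with h | h | h
  · exact absurd h hP
  · exact absurd h hx
  obtain ⟨h1, h2⟩ := lax_step lax hv.two_ne hd P hP hx
  obtain ⟨h3, h4⟩ := cb hv (div_ne_zero hx hd) h2 h
  right
  refine ⟨?_, h4⟩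
  intro h0
  rw [h0, zero_div] at h3
  exact h3 rfl

theorem g2 (lax : LaxStmt) (hv : IsV F v) (hd : d ≠ 0) (P : Pt d) (hx : cX P ≠ 0)
    (h : cX P / d = 1 ∨ cX P / d = -1 ∨ (v (cX P / d) = 0 ∧ 2 ≤ v (cX P / d - 1))) :
    cX (sm lam P) = 0 ∨ 0 < v (cX (sm lam P) / d) := by
  have hP : P ≠ 0 := by
    rintro rfl
    exact hx rfl
  obtain ⟨h1, h2⟩ := lax_step lax hv.two_ne hd P hP hx
  have hz : (cX P / d) ^ 2 - 1 = 0 → cX (sm lam P) = 0 := by
    intro h0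
    rw [h0] at h2
    rcases mul_eq_zero.1 h2 with h3 | h3
    · rcases div_eq_zero_iff.1 h3 with h4 | h4
      · exact h4
      · exact absurd h4 hd
    · exact absurd h3 (mul_ne_zero (v_2i hv).1 (div_ne_zero hx hd))
  by_cases h1' : cX P / d = 1
  · left; apply hz; rw [h1']; ring
  by_cases hm1 : cX P / d = -1
  · left; apply hz; rw [hm1]; ring
  rcases h with h | h | ⟨h3, h4⟩
  · exact absurd h h1'
  · exact absurd h hm1
  · right; exact (cc hv (div_ne_zero hx hd) h2 h3 h1' hm1 h4).2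

theorem pow_sm (j : ℕ) (P : Pt d) : sm (lam ^ (j + 1)) P = sm lam (sm (lam ^ j) P) := by
  rw [pow_succ', mul_sm]

theorem g_all (lax : LaxStmt) (hv : IsV F v) (hd : d ≠ 0) (P : Pt d) :
    ∃ j : ℕ, G0 v (sm (lam ^ j) P) := by
  by_cases hP : P = 0
  · exact ⟨0, Or.inl (by rw [hP, sm_zero])⟩
  by_cases hx : cX P = 0
  · exact ⟨1, by rw [pow_one]; exact g1 lax hv hd P (Or.inr (Or.inl hx))⟩
  have hxd : cX P / d ≠ 0 := div_ne_zero hx hd
  rcases lt_trichotomy (v (cX P / d)) 0 with h0 | h0 | h0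
  · exact ⟨0, Or.inr (by rw [pow_zero, one_sm]; exact ⟨hx, h0⟩)⟩
  · -- v x = 0
    by_cases hc : cX P / d = 1 ∨ cX P / d = -1 ∨ (v (cX P / d) = 0 ∧ 2 ≤ v (cX P / d - 1))
    · refine ⟨2, ?_⟩
      rw [pow_sm, pow_one]
      apply g1 lax hv hd
      exact Or.inr (g2 lax hv hd P hx hc)
    · push Not at hc
      obtain ⟨hc1, hc2, hc3⟩ := hc
      have h1 := hv.res _ hxd h0 hc1
      have h2 := hc3 h0
      obtain ⟨h3, h4⟩ := lax_step lax hv.two_ne hd P hP hx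
      obtain ⟨h5, h6, h7⟩ := cd hv hxd h4 h0 hc1 (by omega)
      have hx' : cX (sm lam P) ≠ 0 := by
        intro h8
        rw [h8, zero_div] at h5
        exact h5 rfl
      refine ⟨3, ?_⟩
      rw [pow_sm, pow_sm, pow_one]
      apply g1 lax hv hd
      right
      apply g2 lax hv hd _ hx'
      rcases h7 with h7 | h7
      · exact Or.inl h7
      · exact Or.inr (Or.inr ⟨h6, h7⟩)
  · exact ⟨1, by rw [pow_one]; exact g1 lax hv hd P (Or.inr (Or.inr h0))⟩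

theorem g_iter (lax : LaxStmt) (hv : IsV F v) (hd : d ≠ 0) (P : Pt d) (hG : G0 v P) (n : ℕ) :
    sm (lam ^ n) P = 0 ∨ (cX (sm (lam ^ n) P) ≠ 0 ∧ v (cX (sm (lam ^ n) P) / d) ≤ -(n : ℤ) - 1) := by
  induction n with
  | zero =>
    rw [pow_zero, one_sm]
    rcases hG with h | ⟨h1, h2⟩
    · exact Or.inl h
    · exact Or.inr ⟨h1, by push_cast; omega⟩
  | succ n ih =>
    rw [pow_sm]
    rcases ih with h | ⟨h1, h2⟩
    · left; rw [h, sm_zero]
    · right
      have hP : sm (lam ^ n) P ≠ 0 := by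
        intro h0
        rw [h0] at h1
        exact h1 rfl
      obtain ⟨h3, h4⟩ := lax_step lax hv.two_ne hd _ hP h1
      obtain ⟨h5, h6⟩ := ca hv (div_ne_zero h1 hd) h4 (by omega)
      refine ⟨?_, by rw [h6]; push_cast; omega⟩
      intro h8
      rw [h8, zero_div] at h5
      exact h5 rfl

end

theorem k2g (vex : VexStmt) (lax : LaxStmt) : P2.K2gStmt := by
  intro F _ _ ϖ hF h2 d P N hd
  obtain ⟨v, hv⟩ := vex F ϖ hF h2
  obtain ⟨j, hj⟩ := g_all lax hv hd P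
  obtain ⟨n, hn⟩ := exists_pow_lt_of_lt_one (show (0 : ℝ) < 1 / (|N| + 1) by positivity) hv.lt
  refine ⟨n + j, ?_⟩
  have h1 := g_iter lax hv hd _ hj n
  rw [← mul_sm, ← pow_add] at h1
  rcases h1 with h1 | ⟨h1, h3⟩
  · exact Or.inl h1
  · right
    rw [hv.norm _ (div_ne_zero h1 hd)]
    have h4 : ‖la F‖ ^ (-(n : ℤ)) ≤ ‖la F‖ ^ (v (cX (sm (lam ^ (n + j)) P) / d)) :=
      (zpow_le_zpow_iff_right_of_lt_one₀ hv.pos hv.lt).2 (by omega)
    refine lt_of_lt_of_le ?_ h4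
    rw [zpow_neg, zpow_natCast]
    have h5 : 0 < ‖la F‖ ^ n := pow_pos hv.pos n
    have h6 : |N| + 1 < (‖la F‖ ^ n)⁻¹ := by
      rw [lt_inv_comm₀ (by positivity) h5]
      rw [← one_div]
      exact hn
    exact lt_of_le_of_lt ((le_abs_self N).trans (by linarith)) h6

theorem k2gM (vex : VexStmt) (lax : LaxStmt) : Pool.Agent.WAP.K2gStmt :=
  fun F _ _ ϖ hF h2 d hd P N => k2g vex lax F ϖ hF h2 d P N hd

end Pool.Agent.WAP.H8
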